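import Mathlib
import Pool.Agent.R763.Gaps

/-!
# A partition of the plane into smooth arcs which is not smooth on a set of positive measure

Let `K ⊆ ℝ` be a closed set of positive measure whose complement is dense. Over `K` the arcs are
horizontal segments. In a gap `(a, b)` of `K` the arcs are pieces of the curves
`y = c + (1/2) min (c - a) (b - c) sin (x / (b - a))`, `a < c < b`: these curves are disjoint and fill
the strip `a < y < b`, and the slope of the middle one oscillates between `-1/4` and `1/4`, no matter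
how short the gap is. Every point of `K` which is a limit of points of `K` is a limit of gaps.
-/

set_option autoImplicit false

open Set Filter Topology MeasureTheory
open scoped ENNReal RealInnerProductSpace

namespace Pool.Agent.Results.MP_85e89d_gt.NotSmooth

/-- The Euclidean plane. -/
abbrev Plane : Type := EuclideanSpace ℝ (Fin 2)

/-- `γ`, defined on the interval `I`, is a differentiable parametrisation of the arc `A`: `I` is a
nondegenerate interval (open, half-open or closed), `γ` is a homeomorphism of `I` onto `A`, and `γ` is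
differentiable on `I` (one-sided at endpoints of `I` which belong to `I`) with nonzero derivative. -/
structure IsParam (I : Set ℝ) (γ : ℝ → Plane) (A : Set Plane) : Prop where
  interval : I.OrdConnected
  nondegenerate : I.Nontrivial
  homeo : Topology.IsEmbedding fun t : I => γ t
  image : γ '' I = A
  diff : DifferentiableOn ℝ γ I
  deriv_ne : ∀ t ∈ I, derivWithin γ I t ≠ 0

/-- `A` is a differentiable rectifiable arc of length at least `δ`. -/
def IsGoodArc (δ : ℝ) (A : Set Plane) : Prop :=
  ∃ (I : Set ℝ) (γ : ℝ → Plane), IsParam I γ A ∧ eVariationOn γ I ≠ ⊤ ∧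
    ENNReal.ofReal δ ≤ eVariationOn γ I

/-- `p` is an endpoint of the arc `A`: a limit point of one of the two ends of `A`. (For an interval
`I` the filter `atTop` on `I` is the filter of neighbourhoods of its right end; if `I` has a greatest
element `b` it is the principal filter of `b`.) -/
def IsEndpoint (A : Set Plane) (p : Plane) : Prop :=
  ∃ (I : Set ℝ) (γ : ℝ → Plane), IsParam I γ A ∧
    (MapClusterPt p atTop (fun t : I => γ t) ∨ MapClusterPt p atBot (fun t : I => γ t))

/-- `v` is a tangent vector (a derivative of a differentiable parametrisation) of the arc `A` at `x`;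
the tangent line is `x + ℝ v`. -/
def IsTangent (A : Set Plane) (x v : Plane) : Prop :=
  ∃ (I : Set ℝ) (γ : ℝ → Plane) (t : ℝ), IsParam I γ A ∧ t ∈ I ∧ γ t = x ∧ derivWithin γ I t = v

/-- The angle between the lines spanned by `v` and `w`. -/
noncomputable def lineAngle (v w : Plane) : ℝ :=
  min (InnerProductGeometry.angle v w) (InnerProductGeometry.angle v (-w))

/-- A covering of the plane by non-overlapping arcs, all of them differentiable, rectifiable and of
length at least `δ`. -/
structure IsCovering (δ : ℝ) (F : Set (Set Plane)) : Prop where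
  arcs : ∀ A ∈ F, IsGoodArc δ A
  disjoint : ∀ A ∈ F, ∀ B ∈ F, A ≠ B → Disjoint A B
  covers : ⋃₀ F = univ

/-- `F` is smooth at `x`. -/
def SmoothAt (F : Set (Set Plane)) (x : Plane) : Prop :=
  ∀ ε > 0, ∃ N : Set Plane, IsOpen N ∧ x ∈ N ∧ (∀ A ∈ F, ∀ p, IsEndpoint A p → p ∉ N) ∧
    ∀ y ∈ N, ∀ z ∈ N, ∀ A ∈ F, ∀ B ∈ F, ∀ v w, IsTangent A y v → IsTangent B z w →
      lineAngle v w < ε

section construction

open Pool.Agent.R763.Gaps

/-- The leaf with parameter `c`. -/
noncomputable def leaf (K : Set ℝ) (c t : ℝ) : Plane :=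
  t • EuclideanSpace.single 0 1 + G K c t • EuclideanSpace.single 1 1

/-- A piece of a leaf. -/
def piece (K : Set ℝ) (M c : ℝ) (k : ℤ) : Set Plane := leaf K c '' Ico (k * M) ((k + 1) * M)

variable {K : Set ℝ}

@[simp] lemma leaf_zero (c t : ℝ) : leaf K c t 0 = t := by simp [leaf]

@[simp] lemma leaf_one (c t : ℝ) : leaf K c t 1 = G K c t := by simp [leaf]

/-- slope -/
noncomputable def slope (K : Set ℝ) (c t : ℝ) : ℝ :=
  1 / 2 * min (c - lo K c) (hi K c - c) * (Real.cos (t / (hi K c - lo K c)) * (1 / (hi K c - lo K c)))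

lemma hasDerivAt_G (c t : ℝ) : HasDerivAt (fun t => G K c t) (slope K c t) t := by
  have h1 : HasDerivAt (fun t : ℝ => t / (hi K c - lo K c)) (1 / (hi K c - lo K c)) t :=
    (hasDerivAt_id t).div_const _
  have h2 := (h1.sin.const_mul (1 / 2 * min (c - lo K c) (hi K c - c))).const_add c
  exact h2

lemma hasDerivAt_leaf (c t : ℝ) : HasDerivAt (leaf K c)
    ((1 : ℝ) • EuclideanSpace.single 0 1 + slope K c t • EuclideanSpace.single 1 1) t :=
  ((hasDerivAt_id t).smul_const _).add ((hasDerivAt_G c t).smul_const _)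

lemma continuous_leaf (c : ℝ) : Continuous (leaf K c) :=
  continuous_iff_continuousAt.2 fun t => (hasDerivAt_leaf c t).continuousAt

lemma isEmbedding_leaf (c : ℝ) (I : Set ℝ) : Topology.IsEmbedding fun t : I => leaf K c t := by
  have hg : Continuous fun x : Plane => x 0 := by fun_prop
  refine Topology.IsEmbedding.of_comp ((continuous_leaf c).comp continuous_subtype_val) hg ?_
  have : ((fun x : Plane => x 0) ∘ fun t : I => leaf K c t) = Subtype.val := by
    ext t
    simp
  rw [this]
  exact Topology.IsEmbedding.subtypeVal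

lemma uniqueDiff {a b : ℝ} {t : ℝ} (ht : t ∈ Ico a b) :
    UniqueDiffWithinAt ℝ (Ico a b) t := uniqueDiffOn_Ico a b t ht

lemma derivWithin_leaf (c : ℝ) {a b t : ℝ} (ht : t ∈ Ico a b) :
    derivWithin (leaf K c) (Ico a b) t =
      (1 : ℝ) • EuclideanSpace.single 0 1 + slope K c t • EuclideanSpace.single 1 1 :=
  (hasDerivAt_leaf c t).hasDerivWithinAt.derivWithin (uniqueDiff ht)

lemma isParam {M : ℝ} (hM : 0 < M) (c : ℝ) (k : ℤ) :
    IsParam (Ico (k * M) ((k + 1) * M)) (leaf K c) (piece K M c k) := by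
  have hlt : (k * M : ℝ) < (k + 1) * M := by nlinarith
  refine ⟨ordConnected_Ico, ?_, isEmbedding_leaf c _, rfl, ?_, ?_⟩
  · exact ⟨k * M, ⟨le_rfl, hlt⟩, k * M + M / 2, ⟨by linarith, by linarith⟩, by linarith⟩
  · exact fun t _ => (hasDerivAt_leaf c t).differentiableAt.differentiableWithinAt
  · intro t ht h0
    rw [derivWithin_leaf c ht] at h0
    have := congrArg (fun v : Plane => v 0) h0
    simp at this

lemma dist_leaf_ge (c s t : ℝ) : |s - t| ≤ dist (leaf K c s) (leaf K c t) := by
  rw [EuclideanSpace.dist_eq, Fin.sum_univ_two]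
  apply Real.le_sqrt_of_sq_le
  rw [leaf_zero, leaf_zero, Real.dist_eq]
  nlinarith [sq_nonneg (dist (leaf K c s 1) (leaf K c t 1))]

lemma G_lip (h : Good K) (c s t : ℝ) : |G K c s - G K c t| ≤ |s - t| := by
  have h1 := (lo_mem h c).2
  have h2 := (hi_mem h c).2
  simp only [mem_Iic, mem_Ici] at h1 h2
  unfold G
  set a := lo K c
  set b := hi K c
  rcases (h1.trans h2).eq_or_lt with h3 | h3
  · rw [h3]
    simp
  · have hm : 0 ≤ min (c - a) (b - c) := le_min (by linarith) (by linarith)
    have hm2 : min (c - a) (b - c) ≤ b - a := (min_le_left _ _).trans (by linarith)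
    have h4 : |Real.sin (s / (b - a)) - Real.sin (t / (b - a))| ≤ |s / (b - a) - t / (b - a)| := by
      have := (Real.lipschitzWith_sin).dist_le_mul (s / (b - a)) (t / (b - a))
      simpa [Real.dist_eq] using this
    have h5 : |s / (b - a) - t / (b - a)| = |s - t| / (b - a) := by
      rw [← sub_div, abs_div, abs_of_pos (by linarith : 0 < b - a)]
    rw [add_sub_add_left_eq_sub, ← mul_sub, abs_mul, abs_of_nonneg (by positivity)]
    have hba : 0 < b - a := by linarith
    calc 1 / 2 * min (c - a) (b - c) * |Real.sin (s / (b - a)) - Real.sin (t / (b - a))|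
        ≤ 1 / 2 * (b - a) * (|s - t| / (b - a)) := by
          rw [h5] at h4
          gcongr
      _ = 1 / 2 * |s - t| := by field_simp
      _ ≤ |s - t| := by linarith [abs_nonneg (s - t)]

lemma leaf_lip (h : Good K) (c : ℝ) : LipschitzWith 2 (leaf K c) := by
  apply LipschitzWith.of_dist_le_mul
  intro s t
  rw [EuclideanSpace.dist_eq, Fin.sum_univ_two]
  have h1 := G_lip h c s t
  have h0 := abs_nonneg (s - t)
  rw [leaf_zero, leaf_zero, leaf_one, leaf_one, Real.dist_eq, Real.dist_eq]
  refine Real.sqrt_le_iff.2 ⟨by positivity, ?_⟩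
  have h2 := abs_nonneg (G K c s - G K c t)
  push_cast
  nlinarith

lemma isGoodArc (h : Good K) {δ : ℝ} (hδ : 0 < δ) (c : ℝ) (k : ℤ) :
    IsGoodArc δ (piece K (2 * δ) c k) := by
  have hM : 0 < 2 * δ := by positivity
  have hlt : (k * (2 * δ) : ℝ) < (k + 1) * (2 * δ) := by nlinarith
  refine ⟨_, _, isParam hM c k, ?_, ?_⟩
  · have h1 := (leaf_lip h c).locallyBoundedVariationOn univ (k * (2 * δ)) ((k + 1) * (2 * δ))
      (mem_univ _) (mem_univ _)
    rw [univ_inter] at h1
    exact ne_top_of_le_ne_top h1 (eVariationOn.mono _ Ico_subset_Icc_self)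
  · have h1 : (k * (2 * δ) : ℝ) ∈ Ico (k * (2 * δ) : ℝ) ((k + 1) * (2 * δ)) := ⟨le_rfl, hlt⟩
    have h2 : (k * (2 * δ) + δ : ℝ) ∈ Ico (k * (2 * δ) : ℝ) ((k + 1) * (2 * δ)) :=
      ⟨by linarith, by linarith⟩
    refine le_trans ?_ (eVariationOn.edist_le (leaf K c) h2 h1)
    rw [edist_dist]
    apply ENNReal.ofReal_le_ofReal
    refine le_trans ?_ (dist_leaf_ge c _ _)
    rw [add_sub_cancel_left, abs_of_pos hδ]

/-- the family -/
def family (K : Set ℝ) (M : ℝ) : Set (Set Plane) := {A | ∃ c k, A = piece K M c k}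

lemma isCovering (h : Good K) {δ : ℝ} (hδ : 0 < δ) : IsCovering δ (family K (2 * δ)) := by
  have hM : 0 < 2 * δ := by positivity
  refine ⟨?_, ?_, ?_⟩
  · rintro A ⟨c, k, rfl⟩
    exact isGoodArc h hδ c k
  · rintro A ⟨c, k, rfl⟩ B ⟨c', k', rfl⟩ hne
    rw [Set.disjoint_left]
    rintro _ ⟨t, ht, rfl⟩ ⟨s, hs, hst⟩
    apply hne
    have h0 : s = t := by
      have := congrArg (fun v : Plane => v 0) hst
      simpa using this
    subst h0
    have h1 : G K c' s = G K c s := by
      have := congrArg (fun v : Plane => v 1) hst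
      simpa using this
    have h2 : c' = c := (G_strictMono h s).injective h1
    have h3 : k = k' := by
      have e1 : (k : ℝ) < k' + 1 := by
        by_contra hcon
        push Not at hcon
        have := mul_le_mul_of_nonneg_right hcon hM.le
        linarith [ht.1, hs.2]
      have e2 : (k' : ℝ) < k + 1 := by
        by_contra hcon
        push Not at hcon
        have := mul_le_mul_of_nonneg_right hcon hM.le
        linarith [ht.2, hs.1]
      have e1' : k < k' + 1 := by exact_mod_cast e1
      have e2' : k' < k + 1 := by exact_mod_cast e2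
      omega
    rw [h2, h3]
  · rw [eq_univ_iff_forall]
    intro p
    obtain ⟨c, hc⟩ := G_surj h (p 0) (p 1)
    refine ⟨_, ⟨c, ⌊p 0 / (2 * δ)⌋, rfl⟩, p 0, ⟨?_, ?_⟩, ?_⟩
    · have := Int.floor_le (p 0 / (2 * δ))
      rwa [le_div_iff₀ hM] at this
    · have := Int.lt_floor_add_one (p 0 / (2 * δ))
      rwa [div_lt_iff₀ hM] at this
    · ext i
      fin_cases i
      · simp
      · simpa using hc

/-- The tangents at the steepest points. -/
lemma angle_tangents : ¬ lineAngle
    ((1 : ℝ) • EuclideanSpace.single 0 1 + (1 / 4 : ℝ) • EuclideanSpace.single 1 1)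
    ((1 : ℝ) • EuclideanSpace.single 0 1 + (-(1 / 4) : ℝ) • EuclideanSpace.single 1 1) <
      Real.arccos (15 / 17) := by
  set v : Plane := (1 : ℝ) • EuclideanSpace.single 0 1 + (1 / 4 : ℝ) • EuclideanSpace.single 1 1
    with hv
  set w : Plane := (1 : ℝ) • EuclideanSpace.single 0 1 + (-(1 / 4) : ℝ) • EuclideanSpace.single 1 1
    with hw
  have hvw : ⟪v, w⟫ = 15 / 16 := by
    rw [PiLp.inner_apply, Fin.sum_univ_two]
    simp [hv, hw]
    norm_num
  have hnv : ‖v‖ * ‖w‖ = 17 / 16 := by
    rw [EuclideanSpace.norm_eq, EuclideanSpace.norm_eq, Fin.sum_univ_two, Fin.sum_univ_two,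
      ← Real.sqrt_mul (by positivity)]
    simp [hv, hw]
    rw [show ((1 : ℝ) + (4 ^ 2)⁻¹) * (1 + (4 ^ 2)⁻¹) = (17 / 16) ^ 2 by norm_num]
    exact Real.sqrt_sq (by norm_num)
  have h1 : InnerProductGeometry.angle v w = Real.arccos (15 / 17) := by
    unfold InnerProductGeometry.angle
    rw [hvw, hnv]
    norm_num
  have h2 : Real.arccos (15 / 17) ≤ InnerProductGeometry.angle v (-w) := by
    unfold InnerProductGeometry.angle
    rw [inner_neg_right, norm_neg, hvw, hnv]
    apply Real.arccos_le_arccos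
    norm_num
  unfold lineAngle
  rw [not_lt, h1]
  exact le_min le_rfl h2

/-- The covering is not smooth over a point of `K` which is a limit from the right of points of
`K`. -/
lemma not_smooth (h : Good K) (hdense : Dense Kᶜ) {M : ℝ} (hM : 0 < M) {p : Plane}
    (hp : p 1 ∈ K) (hlim : 𝓝[K ∩ Ioi (p 1)] (p 1) ≠ ⊥) : ¬ SmoothAt (family K M) p := by
  intro hs
  have hε : 0 < Real.arccos (15 / 17) := by
    rw [Real.arccos_pos]; norm_num
  obtain ⟨N, hN, hpN, -, hang⟩ := hs _ hε
  obtain ⟨r, hr, hball⟩ := Metric.isOpen_iff.1 hN p hpN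
  -- a point `k` of `K` close to `p 1`
  set η : ℝ := r / 40 with hη
  have hη0 : 0 < η := by positivity
  have : (𝓝[K ∩ Ioi (p 1)] (p 1)).NeBot := ⟨hlim⟩
  obtain ⟨k, ⟨hkK, hk1⟩, hk2⟩ : ∃ k, k ∈ K ∩ Ioi (p 1) ∧ k < p 1 + η := by
    have h1 : ∀ᶠ k in 𝓝[K ∩ Ioi (p 1)] (p 1), k ∈ K ∩ Ioi (p 1) := self_mem_nhdsWithin
    have h2 : ∀ᶠ k in 𝓝[K ∩ Ioi (p 1)] (p 1), k < p 1 + η :=
      nhdsWithin_le_nhds (gt_mem_nhds (by linarith))
    exact (h1.and h2).exists
  -- a gap between `p 1` and `k`
  obtain ⟨y, hyK, hy1, hy2⟩ : ∃ y, y ∉ K ∧ p 1 < y ∧ y < k := by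
    obtain ⟨y, hy, hyK⟩ := hdense.exists_mem_open isOpen_Ioo (nonempty_Ioo.2 hk1)
    exact ⟨y, hy, hyK.1, hyK.2⟩
  have hlo : p 1 ≤ lo K y := le_lo hp hy1.le
  have hhi : hi K y ≤ k := hi_le hkK hy2.le
  have hya : lo K y < y := lt_of_le_of_ne (lo_mem h y).2 fun he => hyK (he ▸ (lo_mem h y).1)
  have hyb : y < hi K y := lt_of_le_of_ne (hi_mem h y).2 fun he => hyK (he.symm ▸ (hi_mem h y).1)
  set a := lo K y with ha
  set b := hi K y with hb
  have hab : 0 < b - a := by linarith
  have hab2 : b - a < η := by linarith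
  -- the middle leaf
  set c := (a + b) / 2 with hc
  have hca : a < c := by rw [hc]; linarith
  have hcb : c < b := by rw [hc]; linarith
  have hlc : lo K c = a := lo_of_mem_gap h hca hcb
  have hhc : hi K c = b := hi_of_mem_gap h hca hcb
  have hslope : ∀ t, slope K c t = 1 / 4 * Real.cos (t / (b - a)) := by
    intro t
    unfold slope
    rw [hlc, hhc]
    have e1 : c - a = (b - a) / 2 := by rw [hc]; ring
    have e2 : b - c = (b - a) / 2 := by rw [hc]; ring
    rw [e1, e2, min_self]
    field_simp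
    ring
  -- points of the middle leaf are close to `p`
  have hclose : ∀ t, |t - p 0| < r / 2 → leaf K c t ∈ N := by
    intro t ht
    apply hball
    rw [Metric.mem_ball, EuclideanSpace.dist_eq, Fin.sum_univ_two, leaf_zero, leaf_one, Real.dist_eq,
      Real.dist_eq]
    have h1 := G_bounds h c t
    rw [hlc, hhc] at h1
    have h2 : |G K c t - p 1| < r / 2 := by
      rw [abs_lt]
      constructor <;> linarith [h1.1, h1.2]
    rw [Real.sqrt_lt' hr]
    have h3 := abs_nonneg (t - p 0)
    have h4 := abs_nonneg (G K c t - p 1)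
    nlinarith
  -- the phase
  set w := b - a with hw
  set n : ℤ := ⌊p 0 / (2 * Real.pi * w)⌋ with hn
  have hpi := Real.pi_pos
  have hpi4 := Real.pi_lt_four
  have hW : 0 < 2 * Real.pi * w := by positivity
  have hn1 : n * (2 * Real.pi * w) ≤ p 0 := by
    have := Int.floor_le (p 0 / (2 * Real.pi * w))
    rwa [le_div_iff₀ hW] at this
  have hn2 : p 0 < (n + 1) * (2 * Real.pi * w) := by
    have := Int.lt_floor_add_one (p 0 / (2 * Real.pi * w))
    rwa [div_lt_iff₀ hW] at this
  have hsmall : 2 * Real.pi * w < r / 4 := by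
    have : 2 * Real.pi * w < 8 * η := by nlinarith
    rw [hη] at this
    linarith
  set t₁ : ℝ := n * (2 * Real.pi * w) with ht₁
  set t₂ : ℝ := n * (2 * Real.pi * w) + Real.pi * w with ht₂
  have h₁ : |t₁ - p 0| < r / 2 := by
    rw [abs_lt]; constructor <;> linarith
  have h₂ : |t₂ - p 0| < r / 2 := by
    have : Real.pi * w < r / 4 := by nlinarith
    have : 0 < Real.pi * w := by positivity
    rw [abs_lt]; constructor <;> linarith
  have s₁ : slope K c t₁ = 1 / 4 := by
    rw [hslope, ht₁]
    have : (n : ℝ) * (2 * Real.pi * w) / w = n * (2 * Real.pi) := by field_simp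
    rw [this, Real.cos_int_mul_two_pi, mul_one]
  have s₂ : slope K c t₂ = -(1 / 4) := by
    rw [hslope, ht₂]
    have : ((n : ℝ) * (2 * Real.pi * w) + Real.pi * w) / w = n * (2 * Real.pi) + Real.pi := by
      field_simp
    rw [this, Real.cos_int_mul_two_pi_add_pi]
    ring
  have hmem : ∀ t : ℝ, t ∈ Ico (((⌊t / M⌋ : ℤ) : ℝ) * M) ((((⌊t / M⌋ : ℤ) : ℝ) + 1) * M) := by
    intro t
    constructor
    · have := Int.floor_le (t / M)
      rwa [le_div_iff₀ hM] at this
    · have := Int.lt_floor_add_one (t / M)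
      rwa [div_lt_iff₀ hM] at this
  have key := hang (leaf K c t₁) (hclose _ h₁) (leaf K c t₂) (hclose _ h₂)
    _ ⟨c, ⌊t₁ / M⌋, rfl⟩ _ ⟨c, ⌊t₂ / M⌋, rfl⟩ _ _
    ⟨_, _, t₁, isParam hM c _, hmem t₁, rfl, derivWithin_leaf c (hmem t₁)⟩
    ⟨_, _, t₂, isParam hM c _, hmem t₂, rfl, derivWithin_leaf c (hmem t₂)⟩
  rw [s₁, s₂] at key
  exact angle_tangents key

end construction

/-- **The plane has coverings by non-overlapping smooth arcs which are not smooth almost
everywhere.** For every `δ > 0` there is a covering `F` of the plane by non-overlapping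
differentiable rectifiable arcs of length at least `δ` such that the set of the points at which
`F` is not smooth does not have measure zero. More precisely it contains a measurable set of infinite
measure. -/
theorem result : ∀ δ : ℝ, 0 < δ → ∃ F : Set (Set Plane), IsCovering δ F ∧
    ∃ T : Set Plane, MeasurableSet T ∧ volume T = ⊤ ∧ ∀ x ∈ T, ¬ SmoothAt F x := by
  intro δ hδ
  obtain ⟨K, hK, hdense, hvol⟩ := Pool.Agent.R763.Gaps.exists_good
  refine ⟨family K (2 * δ), isCovering hK hδ, ?_⟩
  set K' : Set ℝ := {y ∈ K | 𝓝[K ∩ Ioi y] y = ⊥} with hK'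
  have hcount : K'.Countable := countable_setOfPred_isolated_right_within
  set T : Set Plane := {p | p 1 ∈ K \ K'} with hT
  have hmK : MeasurableSet (K \ K') := hK.closed.measurableSet.diff hcount.measurableSet
  have hTeq : T = (WithLp.ofLp : Plane → (Fin 2 → ℝ)) ⁻¹' (Set.pi univ ![univ, K \ K']) := by
    ext p
    simp [hT, Fin.forall_fin_two]
  have hmpi : MeasurableSet (Set.pi univ (![univ, K \ K'] : Fin 2 → Set ℝ)) := by
    refine MeasurableSet.univ_pi fun i => ?_
    fin_cases i
    · exact MeasurableSet.univ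
    · exact hmK
  have hmT : MeasurableSet T := by
    have : Measurable fun p : Plane => p 1 := by fun_prop
    exact this hmK
  have hvT : volume T = ⊤ := by
    rw [hTeq, (PiLp.volume_preserving_ofLp (Fin 2)).measure_preimage hmpi.nullMeasurableSet,
      volume_pi_pi, Fin.prod_univ_two]
    simp only [Matrix.cons_val_zero, Matrix.cons_val_one]
    rw [Real.volume_univ]
    have h1 : volume (K \ K') ≠ 0 := by
      rw [measure_sdiff_null (hcount.measure_zero _)]
      intro h0
      have h2 : volume (univ : Set ℝ) ≤ volume K + volume Kᶜ := by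
        rw [← union_compl_self K]
        exact measure_union_le _ _
      rw [Real.volume_univ, h0, zero_add, top_le_iff] at h2
      rw [h2] at hvol
      exact absurd hvol (by simp)
    exact ENNReal.top_mul h1
  refine ⟨T, hmT, hvT, fun p hp => ?_⟩
  refine not_smooth hK hdense (by positivity) hp.1 fun hbot => hp.2 ⟨hp.1, hbot⟩

end Pool.Agent.Results.MP_85e89d_gt.NotSmooth
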